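import Pool.Agent.N889.AO.Stm

/-!
# Sums of two numbers `a (θ + θ²)` are not in the prime field
-/

set_option autoImplicit false
open Polynomial

namespace Pool.Agent.N456.AO

open Pool.Agent.N889.AO

namespace Fldx

variable {p : ℕ} [Fact p.Prime]

lemma root_mem {Ω : Type} [Field Ω] [Algebra (ZMod p) Ω] (ζ : Ω) (d : ℕ) (hd : d ∣ p - 1)
    (h : ζ ^ d = 1) : ∃ z : ZMod p, algebraMap (ZMod p) Ω z = ζ := by
  have : CharP Ω p := charP_of_injective_algebraMap (algebraMap (ZMod p) Ω).injective p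
  have hp : 0 < p := (Fact.out : p.Prime).pos
  obtain ⟨m, hm⟩ := hd
  have h1 : ζ ^ p = ζ := by
    have e : p = (p - 1) + 1 := by omega
    rw [e, pow_succ, hm, pow_mul, h, one_pow, one_mul]
  have h2 := (Subfield.mem_bot_iff_pow_eq_self Ω p).2 h1
  rw [mem_bot_iff_intCast p Ω] at h2
  obtain ⟨z, hz⟩ := h2
  refine ⟨(z : ZMod p), ?_⟩
  rw [map_intCast, hz]

/-- the polynomial which represents `θ + θ²` -/
noncomputable def T (L d : ℕ) (g z : ZMod p) : (ZMod p)[X] :=
  C z * X ^ (L / d) + (if d = 2 then C (z ^ 2 * g) else C (z ^ 2) * X ^ (2 * (L / d)))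

lemma T_coeff (L d : ℕ) (g z : ZMod p) (k : ℕ) : (T L d g z).coeff k =
    (if k = L / d then z else 0) + (if d = 2 then (if k = 0 then z ^ 2 * g else 0) else
      (if k = 2 * (L / d) then z ^ 2 else 0)) := by
  unfold T
  rw [coeff_add, coeff_C_mul, coeff_X_pow, mul_ite, mul_one, mul_zero]
  congr 1
  by_cases h : d = 2
  · rw [if_pos h, if_pos h, coeff_C]
  · rw [if_neg h, if_neg h, coeff_C_mul, coeff_X_pow, mul_ite, mul_one, mul_zero]

lemma T_c (L d : ℕ) (g z : ZMod p) (k : ℕ) (h0 : 0 < k) (h1 : k ≠ 2 * (L / d)) :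
    (T L d g z).coeff k = if k = L / d then z else 0 := by
  rw [T_coeff, if_neg (by omega : ¬ k = 0), if_neg h1, ite_self, add_zero]

lemma div_facts {L d : ℕ} (hL : 0 < L) (hd : d ∣ L) (h2 : 2 ≤ d) :
    0 < L / d ∧ L = d * (L / d) ∧ L / d < L ∧ (d ≠ 2 → 2 * (L / d) < L) := by
  obtain ⟨m, rfl⟩ := hd
  have h3 : d * m / d = m := Nat.mul_div_cancel_left m (by omega)
  have hm : 0 < m := by
    rcases Nat.eq_zero_or_pos m with h | h
    · subst h; simp at hL
    · exact h
  rw [h3]
  refine ⟨hm, rfl, ?_, fun h => ?_⟩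
  · nlinarith
  · have : 3 ≤ d := by omega
    nlinarith

lemma T_deg {L d : ℕ} (hL : 0 < L) (hd : d ∣ L) (h2 : 2 ≤ d) (g z : ZMod p) (k : ℕ)
    (hk : L ≤ k) : (T L d g z).coeff k = 0 := by
  obtain ⟨h3, h4, h5, h6⟩ := div_facts hL hd h2
  rw [T_coeff, if_neg (by omega), zero_add]
  by_cases h : d = 2
  · rw [if_pos h, if_neg (by omega)]
  · rw [if_neg h, if_neg]
    have := h6 h
    omega

lemma T_eval {Ω : Type} [Field Ω] [Algebra (ZMod p) Ω] {L d : ℕ} (hL : 0 < L) (hd : d ∣ L)
    (h2 : 2 ≤ d) (g : ZMod p) (γ θ : Ω) (hg : g ≠ 0) (hp : d ∣ p - 1)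
    (hγ : γ ^ L = algebraMap (ZMod p) Ω g) (hθ : θ ^ d = algebraMap (ZMod p) Ω g) :
    ∃ z : ZMod p, z ≠ 0 ∧ z ^ d = 1 ∧ aeval γ (T L d g z) = θ + θ ^ 2 := by
  obtain ⟨h3, h4, h5, h6⟩ := div_facts hL hd h2
  have hg' : algebraMap (ZMod p) Ω g ≠ 0 := by
    rwa [Ne, map_eq_zero]
  have hγ0 : γ ≠ 0 := by
    rintro rfl
    rw [zero_pow hL.ne'] at hγ
    exact hg' hγ.symm
  have hq : γ ^ (L / d) ≠ 0 := pow_ne_zero _ hγ0
  have hqd : (γ ^ (L / d)) ^ d = algebraMap (ZMod p) Ω g := by
    rw [← pow_mul, mul_comm, ← h4, hγ]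
  have hζ : (θ / γ ^ (L / d)) ^ d = 1 := by
    rw [div_pow, hqd, hθ, div_self hg']
  obtain ⟨z, hz⟩ := root_mem _ d hp hζ
  have hzd : z ^ d = 1 := by
    apply (algebraMap (ZMod p) Ω).injective
    rw [map_pow, hz, hζ, map_one]
  have hz0 : z ≠ 0 := by
    rintro rfl
    rw [zero_pow (by omega)] at hzd
    exact zero_ne_one hzd
  have hθe : θ = algebraMap (ZMod p) Ω z * γ ^ (L / d) := by
    rw [hz, div_mul_cancel₀ _ hq]
  refine ⟨z, hz0, hzd, ?_⟩
  unfold T
  by_cases h : d = 2
  · subst h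
    rw [if_pos rfl]
    simp only [map_add, map_mul, aeval_C, map_pow, aeval_X]
    rw [hθe, mul_pow, hqd]
  · rw [if_neg h]
    simp only [map_add, map_mul, aeval_C, map_pow, aeval_X]
    rw [hθe, mul_pow, ← pow_mul, mul_comm 2 (L / d)]

lemma poly_zero {Ω : Type} [Field Ω] [Algebra (ZMod p) Ω] {L : ℕ} (hL : 0 < L) (γ : Ω)
    (hLI : LinearIndependent (ZMod p) (fun k : Fin L => γ ^ (k : ℕ))) (P : (ZMod p)[X])
    (hP : ∀ k, L ≤ k → P.coeff k = 0) (h : aeval γ P = 0) : P = 0 := by
  have h1 : aeval γ P = ∑ k ∈ Finset.range L, P.coeff k • γ ^ k := by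
    refine aeval_eq_sum_range' ?_ γ
    by_contra hc
    push Not at hc
    have h2 : P.coeff P.natDegree = 0 := hP _ hc
    have h3 : P = 0 := by
      rwa [coeff_natDegree, leadingCoeff_eq_zero] at h2
    subst h3
    simp only [natDegree_zero] at hc
    omega
  rw [h1, Finset.sum_range] at h
  have h4 := Fintype.linearIndependent_iff.1 hLI (fun k => P.coeff k) h
  ext k
  rw [coeff_zero]
  by_cases hk : k < L
  · exact h4 ⟨k, hk⟩
  · exact hP k (by omega)

lemma nat_ne {p : ℕ} [Fact p.Prime] {a : ℕ} (h1 : 1 ≤ a) (h2 : a < p) : (a : ZMod p) ≠ 0 := by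
  intro h
  rw [ZMod.natCast_eq_zero_iff] at h
  have := Nat.le_of_dvd (by omega) h
  omega

end Fldx

open Fldx

theorem stmFld : StmLin → StmFld := by
  intro hLin n p _ hn hdiv
  have hL : 0 < n.factorial := Nat.factorial_pos n
  obtain ⟨g, hg, hg2⟩ := hLin p n.factorial hL hdiv
  refine ⟨g, hg, ?_⟩
  intro K _ _ d θ a h2d hdn hθ ha1 han
  set L := n.factorial with hLdef
  -- the algebraic closure
  obtain ⟨γ, hγ⟩ := IsAlgClosed.exists_pow_nat_eq
    (algebraMap (ZMod p) (AlgebraicClosure K) g) hL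
  have hLI := hg2 (AlgebraicClosure K) γ hγ
  have dvdL : ∀ d, 2 ≤ d → d ≤ n → d ∣ L := fun d h2 hd => Nat.dvd_factorial (by omega) hd
  have hmap : ∀ r : ZMod p, algebraMap K (AlgebraicClosure K) (algebraMap (ZMod p) K r) =
      algebraMap (ZMod p) (AlgebraicClosure K) r := fun r =>
    (IsScalarTower.algebraMap_apply (ZMod p) K (AlgebraicClosure K) r).symm
  have hrep : ∀ (d : ℕ) (θ : K), 2 ≤ d → d ≤ n → θ ^ d = algebraMap (ZMod p) K g →
      ∃ z : ZMod p, z ≠ 0 ∧ z ^ d = 1 ∧ aeval γ (T L d g z) =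
        algebraMap K (AlgebraicClosure K) (θ + θ ^ 2) := by
    intro d θ h2 hd hθ
    obtain ⟨z, z1, z2, z3⟩ := T_eval (L := L) hL (dvdL d h2 hd) h2 g γ
      (algebraMap K (AlgebraicClosure K) θ) hg ((dvdL d h2 hd).trans hdiv) hγ
      (by rw [← map_pow, hθ, hmap])
    exact ⟨z, z1, z2, by rw [z3, map_add, map_pow]⟩
  obtain ⟨z, z1, z2, z3⟩ := hrep d θ h2d hdn hθ
  obtain ⟨q1, q2, q3, q4⟩ := div_facts hL (dvdL d h2d hdn) h2d
  have ha0 : (a : ZMod p) ≠ 0 := nat_ne ha1 (by omega)
  refine ⟨?_, ?_⟩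
  · intro r hr
    have hP : C (a : ZMod p) * T L d g z - C r = 0 := by
      refine poly_zero hL γ hLI _ ?_ ?_
      · intro k hk
        rw [coeff_sub, coeff_C_mul, T_deg hL (dvdL d h2d hdn) h2d _ _ k hk, coeff_C,
          if_neg (by omega)]
        simp
      · rw [map_sub, map_mul, aeval_C, aeval_C, z3, map_natCast, ← hmap r, ← hr]
        simp
    have h1 := congrArg (fun P => P.coeff (L / d)) hP
    simp only [coeff_sub, coeff_C_mul, coeff_zero, coeff_C] at h1
    rw [T_c L d g z _ q1 (by omega), if_pos rfl, if_neg (by omega : ¬ L / d = 0), sub_zero] at h1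
    exact (mul_ne_zero ha0 z1) h1
  · intro d' η b h2d' hdn' hη hb1 hbn hab r hr
    obtain ⟨w, w1, w2, w3⟩ := hrep d' η h2d' hdn' hη
    obtain ⟨r1, r2, r3, r4⟩ := div_facts hL (dvdL d' h2d' hdn') h2d'
    have hb0 : (b : ZMod p) ≠ 0 := nat_ne hb1 (by omega)
    have hP : C (a : ZMod p) * T L d g z + C (b : ZMod p) * T L d' g w - C r = 0 := by
      refine poly_zero hL γ hLI _ ?_ ?_
      · intro k hk
        rw [coeff_sub, coeff_add, coeff_C_mul, coeff_C_mul,
          T_deg hL (dvdL d h2d hdn) h2d _ _ k hk,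
          T_deg hL (dvdL d' h2d' hdn') h2d' _ _ k hk, coeff_C, if_neg (by omega)]
        simp
      · rw [map_sub, map_add, map_mul, map_mul, aeval_C, aeval_C, aeval_C, z3, w3, map_natCast,
          map_natCast, ← hmap r, ← hr]
        simp
    have hc : ∀ k, 0 < k → (a : ZMod p) * (T L d g z).coeff k +
        (b : ZMod p) * (T L d' g w).coeff k = 0 := by
      intro k hk
      have h1 := congrArg (fun P => P.coeff k) hP
      simp only [coeff_sub, coeff_add, coeff_C_mul, coeff_zero, coeff_C] at h1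
      rw [if_neg (by omega : ¬ k = 0), sub_zero] at h1
      exact h1
    rcases lt_trichotomy d d' with hlt | heq | hgt
    · -- d < d' : the exponent L/d' is the smallest
      have hlt2 : L / d' < L / d := by
        by_contra hcon
        push Not at hcon
        have : d * (L / d) ≤ d * (L / d') := Nat.mul_le_mul_left _ hcon
        have : d * (L / d') < d' * (L / d') := Nat.mul_lt_mul_of_pos_right hlt r1
        omega
      have h1 := hc (L / d') r1
      rw [T_c L d g z _ r1 (by omega), T_c L d' g w _ r1 (by omega),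
        if_neg (by omega : ¬ L / d' = L / d), if_pos rfl, mul_zero, zero_add] at h1
      exact (mul_ne_zero hb0 w1) h1
    · subst heq
      have h1 := hc (L / d) q1
      rw [T_c L d g z _ q1 (by omega), T_c L d g w _ q1 (by omega), if_pos rfl, if_pos rfl] at h1
      by_cases hd2 : d = 2
      · have hne : a ≠ b := by
          rcases hab with h | h
          · exact h
          · omega
        rw [hd2] at z2 w2
        have h5 : ((a : ZMod p) - b) * (a + b) = 0 := by
          have h6 : ((a : ZMod p) * z) ^ 2 = ((b : ZMod p) * w) ^ 2 := by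
            rw [eq_neg_of_add_eq_zero_left h1, neg_sq]
          rw [mul_pow, mul_pow, z2, w2, mul_one, mul_one] at h6
          linear_combination h6
        rcases mul_eq_zero.1 h5 with h6 | h6
        · rw [sub_eq_zero] at h6
          have h7 := (ZMod.natCast_eq_natCast_iff' a b p).1 h6
          rw [Nat.mod_eq_of_lt (by omega), Nat.mod_eq_of_lt (by omega)] at h7
          exact hne h7
        · have h7 : ((a + b : ℕ) : ZMod p) = 0 := by push_cast; exact h6
          exact nat_ne (p := p) (a := a + b) (by omega) (by omega) h7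
      · have h5 := hc (2 * (L / d)) (by omega)
        rw [T_coeff, T_coeff, if_neg (by omega : ¬ 2 * (L / d) = L / d), if_neg hd2, if_neg hd2,
          if_pos rfl, if_pos rfl, zero_add, if_neg (by omega : ¬ 2 * (L / d) = L / d),
          zero_add] at h5
        have h6 : (b : ZMod p) * w * (w - z) = 0 := by
          linear_combination h5 - z * h1
        have h7 : w = z := by
          rcases mul_eq_zero.1 h6 with h | h
          · exact absurd h (mul_ne_zero hb0 w1)
          · exact sub_eq_zero.1 h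
        rw [h7] at h1
        have h8 : ((a + b : ℕ) : ZMod p) * z = 0 := by push_cast; linear_combination h1
        rcases mul_eq_zero.1 h8 with h | h
        · exact nat_ne (p := p) (a := a + b) (by omega) (by omega) h
        · exact z1 h
    · have hlt2 : L / d < L / d' := by
        by_contra hcon
        push Not at hcon
        have : d' * (L / d') ≤ d' * (L / d) := Nat.mul_le_mul_left _ hcon
        have : d' * (L / d) < d * (L / d) := Nat.mul_lt_mul_of_pos_right hgt q1
        omega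
      have h1 := hc (L / d) q1
      rw [T_c L d g z _ q1 (by omega), T_c L d' g w _ q1 (by omega), if_pos rfl,
        if_neg (by omega : ¬ L / d = L / d'), mul_zero, add_zero] at h1
      exact (mul_ne_zero ha0 z1) h1

end Pool.Agent.N456.AO
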